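import Pool.Agent.Lib.MP_524519_ag.DU5.TE.Iface
import Pool.Agent.Lib.MP_524519_ag.DU5.PC.WEI
import Pool.Agent.Lib.MP_524519_ag.DU5.LNK.NIL

/-!
# DU5, chapter TE, module COP: the syzygies of two series of finite colength

`F⟦x, y⟧ = F⟦x⟧⟦y⟧` is factorial, and a common divisor of `a` and `b` divides a power of `x` and a
power of `y`, so that it is a unit.
-/

set_option autoImplicit false

namespace Pool.Agent.DU5.TE

namespace COP

variable {F : Type} [Field F]

theorem phi_X1 : PC.WEI.phi F (MvPowerSeries.X (1 : Fin 2)) =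
    (PowerSeries.X : PowerSeries (PowerSeries F)) := by
  rw [← PC.EVI.incl_X, PC.WEI.phi_incl, Polynomial.coe_X]

theorem toMv_X : PowerSeries.toMvPowerSeries (R := F) (0 : Fin 2) PowerSeries.X =
    MvPowerSeries.X (0 : Fin 2) := by
  ext e
  rw [PC.WEI.coeff_toMv, MvPowerSeries.coeff_X, PowerSeries.coeff_X]
  by_cases h : e = Finsupp.single 0 1
  · subst h
    simp
  · rw [if_neg h]
    by_cases h1 : e 1 = 0
    · rw [if_pos h1, if_neg]
      intro h0
      apply h
      ext k
      fin_cases k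
      · simpa using h0
      · simpa using h1
    · rw [if_neg h1]

theorem phi_X0 : PC.WEI.phi F (MvPowerSeries.X (0 : Fin 2)) =
    (PowerSeries.C (PowerSeries.X : PowerSeries F) : PowerSeries (PowerSeries F)) := by
  rw [← toMv_X, ← PC.EVI.incl_C, PC.WEI.phi_incl, Polynomial.coe_C]

theorem isRelPrime (a b : PC.R2 F) (h : len F (Ideal.span {a, b}) ≠ ⊤) :
    IsRelPrime (PC.WEI.phi F a) (PC.WEI.phi F b) := by
  obtain ⟨m, hm⟩ := ENat.ne_top_iff_exists.mp h
  have hX := LNK.nil F 2 (Ideal.span {a, b}) m hm.symm.le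
  intro d hda hdb
  have key : ∀ g : PC.R2 F, g ∈ Ideal.span {a, b} → d ∣ PC.WEI.phi F g := by
    intro g hg
    rw [Ideal.mem_span_pair] at hg
    obtain ⟨u, v, rfl⟩ := hg
    rw [map_add, map_mul, map_mul]
    exact dvd_add (dvd_mul_of_dvd_right hda _) (dvd_mul_of_dvd_right hdb _)
  have h1 := key _ (hX 1)
  have h0 := key _ (hX 0)
  rw [map_pow, phi_X1] at h1
  rw [map_pow, phi_X0] at h0
  obtain ⟨i, hi, hd⟩ := (dvd_prime_pow PowerSeries.X_prime m).mp h1
  rcases Nat.eq_zero_or_pos i with rfl | hi0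
  · rw [pow_zero] at hd
    exact (associated_one_iff_isUnit).mp hd
  · exfalso
    have h2 : (PowerSeries.X : PowerSeries (PowerSeries F)) ∣ PowerSeries.C PowerSeries.X ^ m :=
      ((dvd_pow_self _ hi0.ne').trans hd.symm.dvd).trans h0
    have h3 := PowerSeries.X_prime.dvd_of_dvd_pow h2
    rw [PowerSeries.X_dvd_iff, PowerSeries.constantCoeff_C] at h3
    exact PowerSeries.X_ne_zero h3

end COP

theorem cop : CopStatement := by
  intro F _ a b hfin u v huv
  have hrel := COP.isRelPrime a b hfin
  by_cases hb : b = 0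
  · subst hb
    rw [map_zero, isRelPrime_zero_right] at hrel
    have ha : IsUnit a := by
      rw [← MulEquiv.isUnit_map (PC.WEI.phi F)]
      exact hrel
    rw [mul_zero, add_zero] at huv
    have hu : u = 0 := (ha.mul_left_eq_zero).mp huv
    obtain ⟨a', ha'⟩ := ha.exists_left_inv
    refine ⟨-(v * a'), by rw [hu]; ring, ?_⟩
    have : v * (a' * a) = v := by rw [ha', mul_one]
    linear_combination -this
  · have h1 : PC.WEI.phi F b ∣ PC.WEI.phi F u * PC.WEI.phi F a := by
      refine ⟨-PC.WEI.phi F v, ?_⟩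
      have := congrArg (PC.WEI.phi F) huv
      rw [map_add, map_mul, map_mul, map_zero] at this
      linear_combination this
    have h2 : PC.WEI.phi F b ∣ PC.WEI.phi F u := hrel.symm.dvd_of_dvd_mul_right h1
    obtain ⟨c', hc'⟩ := h2
    obtain ⟨c, rfl⟩ := (PC.WEI.phi F).surjective c'
    rw [← map_mul] at hc'
    have hu : u = b * c := (PC.WEI.phi F).injective hc'
    refine ⟨c, by rw [hu]; ring, ?_⟩
    have h3 : b * (v + c * a) = 0 := by
      rw [hu] at huv
      linear_combination huv
    rcases mul_eq_zero.mp h3 with h4 | h4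
    · exact absurd h4 hb
    · linear_combination h4

end Pool.Agent.DU5.TE
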